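import Pool.Agent.LibTrade92.Coding
import Pool.Agent.LibAL48.Sys

/-!
Systems of richer oracles: the plain oracle codes the complements of languages accepted by
programs which ask the richer oracle.
-/

namespace Pool.Agent.LibTA92

open Function Pool.Agent.LibNexp
open Pool.Agent.LibSpec4 (dg length_dg dg_injective bt bt_injective length_bt ask cd ask_injective
  cd_injective length_ask length_cd length_lt_cd xs length_xs xs_injective census lev
  witLang_agree census_agree le_lev lev_mono exists_fix exists_notMem)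
open Pool.Agent.LibTrade92 (qlen EE wl qlen_le_wl le_EE tag tag_agree tag_eq tag_zero tag_never
  IsCode)
open Pool.Agent.LibAL48 (Sys plain_agree rich_agree bad_len exists_glue)

variable {S : Sys} {en : ℕ → Prog × (ℕ → ℕ)} {V ν : ℕ → ℕ} {tgd : ℕ → ℕ → Prop} {E E' : S.W}

/-- Program number `N` accepts `x` in its time, asking the rich oracle. -/
def AccN (en : ℕ → Prog × (ℕ → ℕ)) (E : S.W) (N : ℕ) (x : List Bool) : Prop :=
  LibTrade92.AccN en (S.rich E) N x

theorem accN_agree {N : ℕ} {x : List Bool} (h : ∀ n ≤ qlen en N x.length, E n = E' n) :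
    AccN en E N x ↔ AccN en E' N x :=
  LibTrade92.accN_agree fun _ hs => rich_agree h hs

theorem tagW_agree (hν : ∀ k, 1 ≤ ν k) {N M : ℕ} (h : ∀ n ≤ M, E n = E' n) :
    tag V ν tgd (S.plain E) N M = tag V ν tgd (S.plain E') N M :=
  tag_agree hν fun s hs => plain_agree (h s.length hs)

/-- The intended value on code strings. -/
def Val (en : ℕ → Prog × (ℕ → ℕ)) (V ν : ℕ → ℕ) (tgd : ℕ → ℕ → Prop) (E : S.W)
    (s : List Bool) : Prop :=
  ∃ N x r w, s = cd N x r w ∧ w.length = wl en N x.length ∧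
    r = tag V ν tgd (S.plain E) N (qlen en N x.length) ∧ ¬ AccN en E N x

theorem val_cd {N : ℕ} {x : List Bool} {r : ℕ} {w : List Bool}
    (h : Val en V ν tgd E (cd N x r w)) :
    r = tag V ν tgd (S.plain E) N (qlen en N x.length) ∧ ¬ AccN en E N x := by
  obtain ⟨N', x', r', w', h1, -, h2, h3⟩ := h
  obtain ⟨rfl, rfl, rfl, rfl⟩ := cd_injective h1
  exact ⟨h2, h3⟩

theorem val_agree (hν : ∀ k, 1 ≤ ν k) {s : List Bool} (h : ∀ n < s.length, E n = E' n) :
    Val en V ν tgd E s → Val en V ν tgd E' s := by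
  rintro ⟨N, x, r, w, rfl, h1, h2, h3⟩
  have hag : ∀ n ≤ qlen en N x.length, E n = E' n := by
    intro n hn
    refine h n ?_
    have := length_lt_cd N x r w
    have := qlen_le_wl en N x.length
    omega
  refine ⟨N, x, r, w, rfl, h1, ?_, ?_⟩
  · rw [h2, tagW_agree hν hag]
  · rwa [accN_agree hag] at h3

/-- The plain oracle of `E` is the completion of `P` with the strings of `B` and those shorter
than `ℓ` frozen. -/
structure Compl (en : ℕ → Prog × (ℕ → ℕ)) (V ν : ℕ → ℕ) (tgd : ℕ → ℕ → Prop)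
    (P : List Bool → Bool) (B : Finset (List Bool)) (ℓ : ℕ) (E : S.W) : Prop where
  same : ∀ s, (s.length < ℓ ∨ s ∈ B ∨ ¬ IsCode en s) → S.plain E s = P s
  code : ∀ s, ℓ ≤ s.length → s ∉ B → IsCode en s → (S.plain E s = true ↔ Val en V ν tgd E s)

/-- Completion of a plain oracle by coding, without changing the levels below `ℓ` and the answers
to the queries of `Z`. -/
theorem comp (hν : ∀ k, 1 ≤ ν k) (E₀ : S.W) (Z : Finset (List Bool)) (ℓ : ℕ)
    (P : List Bool → Bool) (hP1 : ∀ s, s.length < ℓ → P s = S.plain E₀ s)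
    (hP2 : ∀ s ∈ S.bad Z, P s = S.plain E₀ s) :
    ∃ E : S.W, Compl en V ν tgd P (S.bad Z) ℓ E ∧ (∀ n < ℓ, E n = E₀ n) ∧
      ∀ t ∈ Z, S.rich E t = S.rich E₀ t := by
  classical
  obtain ⟨G, hG1, hG2⟩ := exists_glue S ℓ E₀ E₀ Z
  obtain ⟨O, hO⟩ := exists_fix (fun O s => if s.length < ℓ ∨ s ∈ S.bad Z ∨ ¬ IsCode en s then P s
    else decide (Val en V ν tgd (G O) s)) (by
      intro O O' s h
      have hG : ∀ n < s.length, G O n = G O' n := fun n hn => hG1 O O' n fun u hu =>
        h u (by omega)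
      by_cases h1 : s.length < ℓ ∨ s ∈ S.bad Z ∨ ¬ IsCode en s
      · simp only [if_pos h1]
      · simp only [if_neg h1]
        exact decide_eq_decide.2 ⟨val_agree hν hG, val_agree hν fun n hn => (hG n hn).symm⟩)
  have hsame : ∀ s, (s.length < ℓ ∨ s ∈ S.bad Z ∨ ¬ IsCode en s) → O s = P s := fun s hs => by
    have := congrFun hO s
    simp only [if_pos hs] at this
    exact this.symm
  obtain ⟨h1, h2, h3⟩ := hG2 O (fun s hs => by rw [hsame s (Or.inl hs), hP1 s hs])
    (fun s hs => by rw [hsame s (Or.inr (Or.inl hs)), hP2 s hs]) (fun _ _ => rfl)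
  refine ⟨G O, ⟨fun s hs => ?_, fun s g1 g2 g3 => ?_⟩, h2, h3⟩
  · rw [h1, hsame s hs]
  · have h4 : ¬ (s.length < ℓ ∨ s ∈ S.bad Z ∨ ¬ IsCode en s) := by
      rintro (h | h | h)
      · omega
      · exact g2 h
      · exact h g3
    have := congrFun hO s
    simp only [if_neg h4] at this
    rw [h1, ← this, decide_eq_true_iff]

/-- The completion can be repeated from a length on without frozen queries. -/
theorem recomp (hν : ∀ k, 1 ≤ ν k) {P : List Bool → Bool} {B : Finset (List Bool)} {ℓ R : ℕ}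
    (hR : ℓ ≤ R) (hc : Compl en V ν tgd P B ℓ E) :
    ∃ E₁ : S.W, Compl en V ν tgd P (B.filter fun s => s.length < R) ℓ E₁ ∧
      ∀ n < R, E₁ n = E n := by
  obtain ⟨E₁, h1, h2, -⟩ := comp (en := en) (V := V) (tgd := tgd) hν E ∅ R (S.plain E)
    (fun _ _ => rfl) (fun _ _ => rfl)
  have hbad : S.bad ∅ = ∅ := by
    rw [← Finset.card_eq_zero]
    have := S.card_bad ∅
    simpa using this
  rw [hbad] at h1
  refine ⟨E₁, ⟨fun s hs => ?_, fun s g1 g2 g3 => ?_⟩, h2⟩
  · by_cases h3 : s.length < R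
    · rw [h1.same s (Or.inl h3)]
      refine hc.same s ?_
      rcases hs with hs | hs | hs
      · exact Or.inl hs
      · exact Or.inr (Or.inl (Finset.mem_filter.1 hs).1)
      · exact Or.inr (Or.inr hs)
    · have h4 : ¬ IsCode en s := by
        rcases hs with hs | hs | hs
        · omega
        · exact absurd (Finset.mem_filter.1 hs).2 h3
        · exact hs
      rw [h1.same s (Or.inr (Or.inr h4))]
      exact hc.same s (Or.inr (Or.inr h4))
  · by_cases h3 : s.length < R
    · rw [h1.same s (Or.inl h3), hc.code s g1 (fun h => g2 (Finset.mem_filter.2 ⟨h, h3⟩)) g3]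
      exact ⟨val_agree hν fun n hn => (h2 n (by omega)).symm,
        val_agree hν fun n hn => h2 n (by omega)⟩
    · exact h1.code s (not_lt.1 h3) (by simp) g3

/-- Worlds coding all complements correctly. -/
structure Good (en : ℕ → Prog × (ℕ → ℕ)) (V ν : ℕ → ℕ) (tgd : ℕ → ℕ → Prop)
    (E : S.W) : Prop where
  sound : ∀ N x r w, w.length = wl en N x.length → S.plain E (cd N x r w) = true →
    r = tag V ν tgd (S.plain E) N (qlen en N x.length) → ¬ AccN en E N x
  complete : ∀ N x, ¬ AccN en E N x → ∃ w : List Bool, w.length = wl en N x.length ∧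
    S.plain E (cd N x (tag V ν tgd (S.plain E) N (qlen en N x.length)) w) = true
  codes : ∀ s, S.plain E (false :: s) = true → IsCode en (false :: s)

theorem good_comp (hν : ∀ k, 1 ≤ ν k) {E₁ : S.W} {P : List Bool → Bool} {B : Finset (List Bool)}
    {ℓ : ℕ} (hg : Good en V ν tgd E₁) (hc : Compl en V ν tgd P B ℓ E)
    (hlev : ∀ n < ℓ, E n = E₁ n)
    (hP1 : ∀ s, s.length < ℓ → P s = S.plain E₁ s) (hP2 : ∀ s ∈ B, P s = S.plain E₁ s)
    (hP3 : ∀ s, P (false :: s) = true → IsCode en (false :: s))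
    (hF : ∀ N x r w, cd N x r w ∈ B → w.length = wl en N x.length → ℓ ≤ qlen en N x.length →
      r = tag V ν tgd (S.plain E) N (qlen en N x.length) → P (cd N x r w) = true →
      ¬ AccN en E N x)
    (hcard : B.card < 2 ^ ℓ) : Good en V ν tgd E := by
  have h1 := hc.same
  have h2 := hc.code
  have hlow : ∀ s, s.length < ℓ → S.plain E s = S.plain E₁ s := fun s hs => by
    rw [h1 s (Or.inl hs), hP1 s hs]
  have hlow' : ∀ {M : ℕ}, M < ℓ → ∀ n ≤ M, E n = E₁ n :=
    fun hM n hn => hlev n (by omega)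
  refine ⟨?_, ?_, ?_⟩
  · intro N x r w hw hO hr
    have hqw := qlen_le_wl en N x.length
    set M := qlen en N x.length with hM
    by_cases hMl : M < ℓ
    · by_cases h3 : (cd N x r w).length < ℓ ∨ cd N x r w ∈ B
      · have h4 : S.plain E₁ (cd N x r w) = true := by
          rcases h3 with h3 | h3
          · rw [← hlow _ h3]; exact hO
          · rw [← hP2 _ h3, ← h1 _ (Or.inr (Or.inl h3))]; exact hO
        rw [tagW_agree hν (hlow' hMl)] at hr
        rw [accN_agree (hlow' hMl)]
        exact hg.sound N x r w hw h4 hr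
      · push Not at h3
        exact (val_cd ((h2 _ h3.1 h3.2 ⟨N, x, r, w, rfl, hw⟩).1 hO)).2
    · push Not at hMl
      have h3 : ℓ ≤ (cd N x r w).length := by
        have := length_lt_cd N x r w
        omega
      by_cases h4 : cd N x r w ∈ B
      · rw [h1 _ (Or.inr (Or.inl h4))] at hO
        exact hF N x r w h4 hw hMl hr hO
      · exact (val_cd ((h2 _ h3 h4 ⟨N, x, r, w, rfl, hw⟩).1 hO)).2
  · intro N x hN
    have hqw := qlen_le_wl en N x.length
    set M := qlen en N x.length with hM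
    by_cases hMl : M < ℓ
    · rw [accN_agree (hlow' hMl)] at hN
      obtain ⟨w, hw, hO⟩ := hg.complete N x hN
      refine ⟨w, hw, ?_⟩
      rw [tagW_agree hν (hlow' hMl)]
      by_cases h3 : (cd N x (tag V ν tgd (S.plain E₁) N M) w).length < ℓ
      · rw [hlow _ h3]; exact hO
      · by_cases h4 : cd N x (tag V ν tgd (S.plain E₁) N M) w ∈ B
        · rw [h1 _ (Or.inr (Or.inl h4)), hP2 _ h4]; exact hO
        · rw [h2 _ (by omega) h4 ⟨N, x, _, w, rfl, hw⟩]
          exact ⟨N, x, _, w, rfl, hw, (tagW_agree hν (hlow' hMl)).symm,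
            by rw [accN_agree (hlow' hMl)]; exact hN⟩
    · push Not at hMl
      obtain ⟨w, hw, h4⟩ := exists_notMem (N := N) (x := x) (r := tag V ν tgd (S.plain E) N M)
        (m := wl en N x.length)
        (F := B) (lt_of_lt_of_le hcard (Nat.pow_le_pow_right (by norm_num) (le_trans hMl hqw)))
      refine ⟨w, hw, ?_⟩
      have h3 : ℓ ≤ (cd N x (tag V ν tgd (S.plain E) N M) w).length := by
        have := length_lt_cd N x (tag V ν tgd (S.plain E) N M) w
        omega
      rw [h2 _ h3 h4 ⟨N, x, _, w, rfl, hw⟩]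
      exact ⟨N, x, _, w, rfl, hw, rfl, hN⟩
  · intro s hs
    by_contra hcode
    rw [h1 _ (Or.inr (Or.inr hcode))] at hs
    exact hcode (hP3 s hs)

end Pool.Agent.LibTA92
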