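import Pool.Agent.LibTrade92.World
import Pool.Agent.LibSpec4.Chain
import Pool.Agent.LibTA92.Coding

/-!
Worlds of a stage; one step of the chain: one more witness.
-/

namespace Pool.Agent.LibTA92

open Function Pool.Agent.LibNexp
open Pool.Agent.LibSpec4 (dg length_dg dg_injective bt bt_injective length_bt ask cd ask_injective
  cd_injective length_ask length_cd length_lt_cd xs length_xs xs_injective census lev
  witLang_agree census_agree le_lev lev_mono exists_fix exists_notMem xs_append census_eq acc_use')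
open Pool.Agent.LibTrade92 (qlen EE wl qlen_le_wl le_EE tag tag_agree tag_eq tag_zero tag_never
  IsCode Data exists_level not_isCode_true)
open Pool.Agent.LibAL48 (Sys plain_agree rich_agree bad_len exists_glue)

variable {S : Sys} {en : ℕ → Prog × (ℕ → ℕ)} {V ν : ℕ → ℕ} {tgd : ℕ → ℕ → Prop} {R : ℕ → ℕ}
  {L k : ℕ} {I : Finset (ℕ × List Bool)}

/-- The worlds of the stage `k` with `j` witnesses. -/
structure World (en : ℕ → Prog × (ℕ → ℕ)) (V ν : ℕ → ℕ) (tgd : ℕ → ℕ → Prop) (k : ℕ)
    (E₀ E : S.W) (j : ℕ) : Prop where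
  low : ∀ n < lev ν k, E n = E₀ n
  good : Good en V ν tgd E
  wit : ∀ i, i < V k - 1 → (xs (ν k) i ∈ WitLang (S.plain E) ↔ i < j)
  fresh : ∀ N x r w, tgd k N → w.length = wl en N x.length → lev ν k ≤ qlen en N x.length →
    qlen en N x.length < lev ν (k + 1) → j < r → S.plain E (cd N x r w) = false

/-- A world with a given plain oracle and given low levels. -/
theorem exists_plain (E₀ : S.W) (ℓ : ℕ) (f : List Bool → Bool)
    (hf : ∀ s, s.length < ℓ → f s = S.plain E₀ s) :
    ∃ E : S.W, (∀ s, S.plain E s = f s) ∧ ∀ n < ℓ, E n = E₀ n := by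
  obtain ⟨G, -, hG2⟩ := exists_glue S ℓ E₀ E₀ ∅
  have hbad : S.bad ∅ = ∅ := by
    rw [← Finset.card_eq_zero]
    have := S.card_bad ∅
    simpa using this
  obtain ⟨h1, h2, -⟩ := hG2 f hf (by rw [hbad]; simp) (fun _ _ => rfl)
  exact ⟨G f, h1, h2⟩

/-- The first world of a stage. -/
theorem world_zero (hd : Data en V ν tgd k R L I) {E₀ : S.W}
    (hgood : Good en V ν tgd E₀) : ∃ E, World en V ν tgd k E₀ E 0 := by
  classical
  have hν := hd.pos
  have hlen : ∀ {i : ℕ}, (xs (ν k) i).length = ν k := fun {i} => length_xs (hν k)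
  set P : List Bool → Bool := fun s => if s.length < lev ν k then S.plain E₀ s else false with hP
  have hP1 : ∀ s, s.length < lev ν k → P s = S.plain E₀ s := fun s hs => by
    simp only [hP, if_pos hs]
  have hP0 : ∀ s, lev ν k ≤ s.length → P s = false := fun s hs => by
    simp only [hP, if_neg (not_lt.2 hs)]
  have hbad : S.bad ∅ = ∅ := by
    rw [← Finset.card_eq_zero]
    have := S.card_bad ∅
    simpa using this
  obtain ⟨E, hc, hlow, -⟩ := comp (en := en) (V := V) (tgd := tgd) hν E₀ ∅ (lev ν k) P hP1
    (by rw [hbad]; simp)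
  rw [hbad] at hc
  have h1 := hc.same
  have h2 := hc.code
  have hwit : ∀ i, i < V k - 1 → (xs (ν k) i ∈ WitLang (S.plain E) ↔ i < 0) := by
    intro i hi
    constructor
    · rintro ⟨w, hw, h⟩
      exfalso
      obtain ⟨l, hl⟩ := xs_append (ν k) i w
      rw [h1 _ (Or.inr (Or.inr (by rw [hl]; exact not_isCode_true l))),
        hP0 _ (by rw [List.length_append, hw, hlen]; exact le_rfl)] at h
      exact absurd h (by simp)
    · intro h; omega
  refine ⟨E, hlow, ?_, hwit, ?_⟩
  · refine good_comp hν hgood hc hlow hP1 (by simp) (fun s hs => ?_) (by simp) (by simp)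
    by_cases h3 : (false :: s).length < lev ν k
    · rw [hP1 _ h3] at hs; exact hgood.codes s hs
    · rw [hP0 _ (not_lt.1 h3)] at hs; exact absurd hs (by simp)
  · intro N x r w hNt hw h3 h4 h5
    by_contra hne
    rw [Bool.not_eq_false] at hne
    have h6 := (val_cd ((h2 _ (by
      have := length_lt_cd N x r w
      have := qlen_le_wl en N x.length
      omega) (by simp)
      ⟨N, x, r, w, rfl, hw⟩).1 hne)).1
    rw [tag_eq hd.levlt h3 h4 hNt, census_eq (Nat.zero_le _) hwit] at h6
    omega

/-- The completion after adding a witness is a world if the frozen codes are correct. -/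
theorem world_succ (hd : Data en V ν tgd k R L I) {E₀ E : S.W} {j : ℕ}
    (hw : World en V ν tgd k E₀ E j) (hj : j < V k - 1) {B B₁ : Finset (List Bool)}
    (hB : B.card < 2 ^ (2 ^ ν k)) (hBR : ∀ s ∈ B, s.length < R L) (hB1 : B₁ ⊆ B)
    {w : List Bool} (hwn : w.length = 2 ^ ν k) (hwB : xs (ν k) j ++ w ∉ B)
    {E' : S.W} (hlow : ∀ n < lev ν k, E' n = E n)
    (hc : Compl en V ν tgd (update (S.plain E) (xs (ν k) j ++ w) true) B₁ (lev ν k) E')
    (hbad : ∀ N y v, cd N y 0 v ∈ B₁ → v.length = wl en N y.length →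
      lev ν k ≤ qlen en N y.length → ¬ tgd k N → S.plain E (cd N y 0 v) = true →
      ¬ AccN en E' N y) :
    World en V ν tgd k E₀ E' (j + 1) := by
  classical
  have hν := hd.pos
  have hlen : ∀ {i : ℕ}, (xs (ν k) i).length = ν k := fun {i} => length_xs (hν k)
  have hcand : ∀ {i : ℕ}, i < V k - 1 → i < 2 ^ (ν k - 1) := fun {i} hi => by
    have := hd.cand k
    omega
  set x := xs (ν k) j with hx
  have hxn : x.length = ν k := hlen
  obtain ⟨l, hl⟩ := xs_append (ν k) j w
  rw [← hx] at hl
  have hlev : (x ++ w).length = lev ν k := by rw [List.length_append, hxn, hwn]; rfl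
  set P : List Bool → Bool := update (S.plain E) (x ++ w) true with hP
  have hPne : ∀ s, s ≠ x ++ w → P s = S.plain E s := fun s hs => update_of_ne hs _ _
  have g1 := hc.same
  have g2 := hc.code
  have hP1 : ∀ s, s.length < lev ν k → P s = S.plain E s := fun s hs => hPne s (by
    rintro rfl; omega)
  have hP2 : ∀ s ∈ B₁, P s = S.plain E s := fun s hs => hPne s (by rintro rfl; exact hwB (hB1 hs))
  have hO2F : ∀ s ∈ B₁, S.plain E' s = S.plain E s := fun s hs => by
    rw [g1 s (Or.inr (Or.inl hs)), hP2 s hs]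
  have hwit : ∀ i, i < V k - 1 → (xs (ν k) i ∈ WitLang (S.plain E') ↔ i < j + 1) := by
    intro i hi
    have key : ∀ v : List Bool, S.plain E' (xs (ν k) i ++ v) = P (xs (ν k) i ++ v) := by
      intro v
      obtain ⟨l', hl'⟩ := xs_append (ν k) i v
      exact g1 _ (Or.inr (Or.inr (by rw [hl']; exact not_isCode_true l')))
    constructor
    · rintro ⟨v, hv, h⟩
      rw [key] at h
      by_cases he : xs (ν k) i ++ v = x ++ w
      · have : xs (ν k) i = xs (ν k) j := (List.append_inj he (by rw [hlen, hxn])).1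
        have := xs_injective (hcand hi) (hcand (by omega)) this
        omega
      · rw [hPne _ he] at h
        have := (hw.wit i hi).1 ⟨v, hv, h⟩
        omega
    · intro h
      rcases Nat.lt_or_ge i j with h10 | h10
      · obtain ⟨v, hv, h11⟩ := (hw.wit i hi).2 h10
        refine ⟨v, hv, ?_⟩
        rw [key]
        by_cases he : xs (ν k) i ++ v = x ++ w
        · rw [he, hP, update_self]
        · rw [hPne _ he, h11]
      · have : i = j := by omega
        subst this
        exact ⟨w, by rw [hwn, hlen], by rw [key, hP, ← hx, update_self]⟩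
  have hcensus := census_eq (V := V k) (j := j + 1) (by omega) hwit
  have hB1card : B₁.card < 2 ^ (2 ^ ν k) := lt_of_le_of_lt (Finset.card_le_card hB1) hB
  have hgood2 : Good en V ν tgd E' := by
    refine good_comp hν hw.good hc hlow hP1 hP2 (fun s hs => ?_) ?_ ?_
    · rw [hPne _ (by rw [hl]; simp)] at hs
      exact hw.good.codes s hs
    · intro N y r v hmem hv hq hr hPt
      have h10 : qlen en N y.length < lev ν (k + 1) := by
        have := hBR _ (hB1 hmem)
        have := length_lt_cd N y r v
        have := qlen_le_wl en N y.length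
        have := hd.last
        omega
      rw [hP2 _ hmem] at hPt
      by_cases hN : tgd k N
      · rw [tag_eq hd.levlt hq h10 hN, hcensus] at hr
        rw [hw.fresh N y r v hN hv hq h10 (by omega)] at hPt
        exact absurd hPt (by simp)
      · rw [tag_zero hd.levlt hq h10 hN] at hr
        subst hr
        exact hbad N y v hmem hv hq hN hPt
    · have : 2 ^ (2 ^ ν k) ≤ 2 ^ lev ν k := Nat.pow_le_pow_right (by norm_num)
        (Nat.le_add_left _ _)
      omega
  refine ⟨fun n hn => ?_, hgood2, hwit, ?_⟩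
  · rw [hlow n hn, hw.low n hn]
  · intro N y r v hN hv h10 h11 h12
    by_cases hmem : cd N y r v ∈ B₁
    · rw [hO2F _ hmem]
      exact hw.fresh N y r v hN hv h10 h11 (by omega)
    · by_contra hne
      rw [Bool.not_eq_false] at hne
      have h13 := (val_cd ((g2 _ (by
        have := length_lt_cd N y r v
        have := qlen_le_wl en N y.length
        omega) hmem
        ⟨N, y, r, v, rfl, hv⟩).1 hne)).1
      rw [tag_eq hd.levlt h10 h11 hN, hcensus] at h13
      omega

/-- One more witness: either the answers to the queries survive, or an item becomes accepted. -/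
theorem step (hd : Data en V ν tgd k R L I) {E₀ E : S.W} {j : ℕ}
    (hw : World en V ν tgd k E₀ E j) (hj : j < V k - 1) {F : Finset (List Bool)}
    (hF : F.card < 2 ^ (2 ^ ν k)) (hFR : ∀ t ∈ F, t.length < R L) :
    (∃ E', World en V ν tgd k E₀ E' (j + 1) ∧ ∀ t ∈ F, S.rich E' t = S.rich E t) ∨
    (∃ E' l, World en V ν tgd k E₀ E' (j + 1) ∧ l < L ∧
      (∀ t ∈ F, t.length < R (l + 1) → S.rich E' t = S.rich E t) ∧
      ∃ q ∈ I, R l ≤ qlen en q.1 q.2.length ∧ qlen en q.1 q.2.length < R (l + 1) ∧
        ¬ AccN en E q.1 q.2 ∧ AccN en E' q.1 q.2) := by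
  classical
  have hν := hd.pos
  have hBcard : (S.bad F).card < 2 ^ (2 ^ ν k) := lt_of_le_of_lt (S.card_bad F) hF
  have hBR : ∀ s ∈ S.bad F, s.length < R L := by
    intro s hs
    obtain ⟨t, ht, h1⟩ := S.bad_lv F s hs
    have h2 := S.lv_le t
    have h3 := hFR t ht
    omega
  obtain ⟨w, hw', hwF⟩ : ∃ w ∈ strs (2 ^ ν k), xs (ν k) j ++ w ∉ S.bad F := by
    by_contra hcon2
    push Not at hcon2
    have hc := Finset.card_le_card_of_injOn (fun w => xs (ν k) j ++ w) hcon2
      (fun w _ w' _ h => List.append_cancel_left h)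
    rw [card_strs] at hc
    omega
  have hwn := mem_strs.1 hw'
  have hxw : (xs (ν k) j ++ w).length = lev ν k := by
    rw [List.length_append, hwn, length_xs (hν k)]; rfl
  obtain ⟨E₂, hc2, hlow2, hans2⟩ := comp (en := en) (V := V) (tgd := tgd) hν E F (lev ν k)
    (update (S.plain E) (xs (ν k) j ++ w) true)
    (fun s hs => update_of_ne (by rintro rfl; omega) _ _)
    (fun s hs => update_of_ne (by rintro rfl; exact hwF hs) _ _)
  -- bad items
  set Bad : ℕ → Prop := fun l => ∃ N y v, cd N y 0 v ∈ S.bad F ∧ v.length = wl en N y.length ∧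
    lev ν k ≤ qlen en N y.length ∧ ¬ tgd k N ∧ S.plain E (cd N y 0 v) = true ∧ AccN en E₂ N y ∧
    R l ≤ qlen en N y.length ∧ qlen en N y.length < R (l + 1) with hBad
  have hlevel : ∀ N y v, cd N y 0 v ∈ S.bad F → v.length = wl en N y.length →
      lev ν k ≤ qlen en N y.length → ∃ l, l < L ∧ R l ≤ qlen en N y.length ∧
        qlen en N y.length < R (l + 1) := by
    intro N y v h1 h2 h3
    refine exists_level (le_trans hd.first h3) ?_
    have := hBR _ h1
    have := length_lt_cd N y 0 v
    have := qlen_le_wl en N y.length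
    omega
  by_cases hb : ∃ l, l < L ∧ Bad l
  · right
    obtain ⟨hl, hbl⟩ := Nat.find_spec hb
    have hmin := fun m hm => Nat.find_min hb (m := m) hm
    set l := Nat.find hb with hldef
    obtain ⟨N, y, v, h1, h2, h3, h4, h5, h6, h7, h8⟩ := hbl
    have hlR : lev ν k ≤ R (l + 1) := le_trans h3 h8.le
    obtain ⟨E₃, hc3, hag⟩ := recomp hν hlR hc2
    have hW : World en V ν tgd k E₀ E₃ (j + 1) := by
      refine world_succ hd hw hj hBcard hBR (Finset.filter_subset _ _) hwn hwF
        (fun n hn => by rw [hag n (by omega), hlow2 n hn]) hc3 ?_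
      intro N' y' v' g1 g2 g3 g4 g5 g6
      rw [Finset.mem_filter] at g1
      obtain ⟨l', hl', g7, g8⟩ := hlevel N' y' v' g1.1 g2 g3
      have hlt : l' < l := by
        by_contra hge
        push Not at hge
        have g9 : R l ≤ qlen en N' y'.length := le_trans (hd.mono hge) g7
        have g10 := hd.gap N' y'.length l hl g9
        have := length_lt_cd N' y' 0 v'
        omega
      have g11 : qlen en N' y'.length < R (l + 1) := lt_of_lt_of_le g8 (hd.mono (by omega))
      have g12 : AccN en E₂ N' y' := by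
        rw [← accN_agree (E := E₃) fun n hn => hag n (by omega)]
        exact g6
      exact hmin l' hlt ⟨hl', N', y', v', g1.1, g2, g3, g4, g5, g12, g7, g8⟩
    refine ⟨E₃, l, hW, hl, fun t ht htl => ?_, (N, y), ?_, h7, h8, ?_, ?_⟩
    · rw [rich_agree (L := t.length) (fun n hn => hag n (by omega)) le_rfl, hans2 t ht]
    · refine hd.items N y h4 h3 ?_
      have := hBR _ h1
      have := length_lt_cd N y 0 v
      omega
    · have g1 : qlen en N y.length < lev ν (k + 1) := by
        have := hBR _ h1
        have := length_lt_cd N y 0 v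
        have := qlen_le_wl en N y.length
        have := hd.last
        omega
      exact hw.good.sound N y 0 v h2 h5 (tag_zero hd.levlt h3 g1 h4).symm
    · show AccN en E₃ N y
      rw [accN_agree (E := E₃) (E' := E₂) fun n hn => hag n (by omega)]
      exact h6
  · left
    push Not at hb
    refine ⟨E₂, world_succ hd hw hj hBcard hBR subset_rfl hwn hwF hlow2 hc2 ?_, hans2⟩
    intro N y v g1 g2 g3 g4 g5 g6
    obtain ⟨l, hl, g7, g8⟩ := hlevel N y v g1 g2 g3
    exact hb l hl ⟨N, y, v, g1, g2, g3, g4, g5, g6, g7, g8⟩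

end Pool.Agent.LibTA92
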