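import Pool.Agent.LibTrade92.Chain
import Pool.Agent.LibTA92.Step

/-!
The chain of worlds and one stage of the construction.
-/

namespace Pool.Agent.LibTA92

open Function Pool.Agent.LibNexp
open Pool.Agent.LibSpec4 (dg length_dg dg_injective bt bt_injective length_bt ask cd ask_injective
  cd_injective length_ask length_cd length_lt_cd xs length_xs xs_injective census lev
  witLang_agree census_agree le_lev lev_mono exists_fix exists_notMem xs_append census_eq acc_use')
open Pool.Agent.LibTrade92 (qlen EE wl qlen_le_wl le_EE tag tag_agree tag_eq tag_zero tag_never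
  IsCode Data exists_level not_isCode_true rank rank_lt rank_lex exists_frozen)
open Pool.Agent.LibAL48 (Sys plain_agree rich_agree bad_len exists_glue)

variable {S : Sys} {en : ℕ → Prog × (ℕ → ℕ)} {V ν : ℕ → ℕ} {tgd : ℕ → ℕ → Prop} {R : ℕ → ℕ}
  {L k : ℕ} {I : Finset (ℕ × List Bool)}

/-- The program `p` with the rich oracle, the time bound `T` and the advice `a` does not accept
the complement of the test language of the plain oracle at length `n`. -/
def Wrong (E : S.W) (p : Prog) (T n : ℕ) (a : List Bool) : Prop :=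
  ∃ x : List Bool, x.length = n ∧ ¬ (x ∉ WitLang (S.plain E) ↔ Acc (S.rich E) p T (pair x a))

/-- The chain, starting in a world of maximal rank. -/
theorem chain (hd : Data en V ν tgd k R L I) {p : Prog} {T : ℕ} {A : Finset (List Bool)}
    (hT : I.card * R L + V k * T < 2 ^ (2 ^ ν k))
    (hAS : ∀ a ∈ A, ∀ x : List Bool, x.length = ν k → (pair x a).length + T < R L)
    {E₀ Em : S.W} {jm : ℕ} (hw : World en V ν tgd k E₀ Em jm)
    (hjm : jm ≤ (A.card + 1) * rank en R I L (S.rich Em))
    (hmax : ∀ (E : S.W) j, World en V ν tgd k E₀ E j →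
      j ≤ (A.card + 1) * rank en R I L (S.rich E) →
      rank en R I L (S.rich E) ≤ rank en R I L (S.rich Em))
    (hV : (A.card + 1) * (I.card + 1) ^ L ≤ V k)
    (hcon : ∀ E : S.W, Good en V ν tgd E → (∀ n < lev ν k, E n = E₀ n) →
      ∃ a ∈ A, ¬ Wrong E p T (ν k) a) (i : ℕ) (hi : i ≤ A.card) :
    ∃ (E : S.W) (Q B : Finset (List Bool)),
      World en V ν tgd k E₀ E (jm + i) ∧ Q.card ≤ I.card * R L + i * T ∧
      (∀ s ∈ Q, s.length < R L) ∧ B ⊆ A ∧ B.card = i ∧
      (∀ q ∈ I, qlen en q.1 q.2.length < R L → AccN en Em q.1 q.2 → ∃ Q' ⊆ Q,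
        (∀ s ∈ Q', s.length ≤ qlen en q.1 q.2.length) ∧
        ∀ E' : S.W, (∀ s ∈ Q', S.rich E' s = S.rich E s) → AccN en E' q.1 q.2) ∧
      (∀ E' : S.W, (∀ s ∈ Q, S.rich E' s = S.rich E s) →
        (∀ i', i' < jm + i → xs (ν k) i' ∈ WitLang (S.plain E')) →
          ∀ a ∈ B, Wrong E' p T (ν k) a) := by
  classical
  have hjV : ∀ i, i < A.card → jm + i < V k - 1 := by
    intro i hi
    have h1 := rank_lt (en := en) (R := R) (I := I) (L := L) (S.rich Em)
    have h2 : (A.card + 1) * (rank en R I L (S.rich Em) + 1) ≤ (A.card + 1) * (I.card + 1) ^ L :=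
      Nat.mul_le_mul_left _ h1
    rw [Nat.mul_add, Nat.mul_one] at h2
    omega
  induction i with
  | zero =>
    obtain ⟨Q, h1, h2, h3⟩ := exists_frozen (en := en) (I := I) (S.rich Em) (R L)
    refine ⟨Em, Q, ∅, hw, by omega, h2, by simp, by simp, fun q hq h4 h5 => ?_, by simp⟩
    obtain ⟨Q', h6, h7, h8⟩ := h3 q hq h4 h5
    exact ⟨Q', h6, h7, fun E' hE' => h8 _ hE'⟩
  | succ i ih =>
    obtain ⟨E, Q, B, hWO, hQ, hQR, hBA, hB, hfr, hwr⟩ := ih (by omega)
    obtain ⟨a, haA, hwa⟩ := hcon E hWO.good hWO.low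
    have hj := hjV i (by omega)
    have haB : a ∉ B := fun h => hwa (hwr E (fun _ _ => rfl)
      (fun i' hi' => (hWO.wit i' (by omega)).2 hi') a h)
    set x := xs (ν k) (jm + i) with hx
    have hxn : x.length = ν k := length_xs (hd.pos k)
    have hxW : x ∉ WitLang (S.plain E) := fun h => by
      have := (hWO.wit (jm + i) hj).1 h; omega
    have hacc : Acc (S.rich E) p T (pair x a) := by
      by_contra hna
      exact hwa ⟨x, hxn, fun h => hna (h.1 hxW)⟩
    obtain ⟨Q', hQ', hQS, hQ'2⟩ := acc_use' hacc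
    set F := Q ∪ Q' with hFdef
    have hFcard : F.card ≤ I.card * R L + (i + 1) * T := by
      refine le_trans (Finset.card_union_le _ _) ?_
      rw [Nat.succ_mul]
      omega
    have hFcard2 : F.card < 2 ^ (2 ^ ν k) := by
      have : (i + 1) * T ≤ V k * T := Nat.mul_le_mul_right _ (by omega)
      omega
    have hFR : ∀ s ∈ F, s.length < R L := by
      intro s hs
      rcases Finset.mem_union.1 hs with hs | hs
      · exact hQR s hs
      · have h1 := hQS s hs
        have h2 := hAS a haA x hxn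
        omega
    rcases step hd hWO hj hFcard2 hFR with ⟨O₂, hW2, hsame⟩ | ⟨O₃, l, hW3, hl, hsame, q, hqI, h7, h8,
      h9, h10⟩
    · refine ⟨O₂, F, insert a B, hW2, hFcard, hFR, Finset.insert_subset haA hBA,
        by rw [Finset.card_insert_of_notMem haB, hB], ?_, ?_⟩
      · intro q hq hqR hqA
        obtain ⟨Q₁, h1, h2, h3⟩ := hfr q hq hqR hqA
        refine ⟨Q₁, h1.trans Finset.subset_union_left, h2, fun O' hO' => h3 O' fun s hs => ?_⟩
        rw [hO' s hs, hsame s (Finset.mem_union_left _ (h1 hs))]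
      · intro O' hO' hX' b hb
        have hag : ∀ s ∈ F, S.rich O' s = S.rich E s := fun s hs => by
          rw [hO' s hs, hsame s hs]
        rw [Finset.mem_insert] at hb
        rcases hb with rfl | hb
        · refine ⟨x, hxn, fun h => ?_⟩
          have h10 : Acc (S.rich O') p T (pair x b) :=
            hQ'2 _ fun s hs => hag s (Finset.mem_union_right _ hs)
          exact h.2 h10 (hX' (jm + i) (by omega))
        · exact hwr O' (fun s hs => hag s (Finset.mem_union_left _ hs))
            (fun i' hi' => hX' i' (by omega)) b hb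
    · exfalso
      have hRL : R (l + 1) ≤ R L := hd.mono (by omega)
      have h11 : rank en R I L (S.rich Em) < rank en R I L (S.rich O₃) := by
        refine rank_lex hd.mono hl (fun q' hq' h1 h2 => ?_) hqI h7 h8 (fun h1 => ?_) h10
        · obtain ⟨Q₁, h3, h4, h5⟩ := hfr q' hq' (by omega) h2
          refine h5 O₃ fun s hs => hsame s (Finset.mem_union_left _ (h3 hs)) ?_
          have := h4 s hs
          omega
        · obtain ⟨Q₁, h3, h4, h5⟩ := hfr q hqI (by omega) h1
          exact h9 (h5 E fun s hs => rfl)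
      have h12 : (A.card + 1) * (rank en R I L (S.rich Em) + 1) ≤
          (A.card + 1) * rank en R I L (S.rich O₃) := Nat.mul_le_mul_left _ h11
      rw [Nat.mul_add, Nat.mul_one] at h12
      have h13 := hmax O₃ (jm + i + 1) hW3 (by omega)
      omega

/-- One stage. -/
theorem stage (hd : Data en V ν tgd k R L I) {p : Prog} {T : ℕ} {A : Finset (List Bool)}
    (hT : I.card * R L + V k * T < 2 ^ (2 ^ ν k))
    (hAS : ∀ a ∈ A, ∀ x : List Bool, x.length = ν k → (pair x a).length + T < R L)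
    (hV : (A.card + 1) * (I.card + 1) ^ L ≤ V k) {E₀ : S.W}
    (hgood : Good en V ν tgd E₀) :
    ∃ E : S.W, Good en V ν tgd E ∧ (∀ n < lev ν k, E n = E₀ n) ∧
      ∀ a ∈ A, Wrong E p T (ν k) a := by
  classical
  by_contra hcon
  push Not at hcon
  -- a world of maximal rank
  have hex : ∃ ρ, ∃ (E : S.W) (j : ℕ), World en V ν tgd k E₀ E j ∧
      j ≤ (A.card + 1) * rank en R I L (S.rich E) ∧ rank en R I L (S.rich E) = ρ := by
    obtain ⟨E, hE⟩ := world_zero hd hgood
    exact ⟨_, E, 0, hE, Nat.zero_le _, rfl⟩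
  have hbd : ∀ ρ, (∃ (E : S.W) (j : ℕ), World en V ν tgd k E₀ E j ∧
      j ≤ (A.card + 1) * rank en R I L (S.rich E) ∧ rank en R I L (S.rich E) = ρ) →
      ρ ≤ (I.card + 1) ^ L := by
    rintro ρ ⟨E, j, -, -, rfl⟩
    exact (rank_lt _).le
  obtain ⟨Em, jm, hw, hjm, hρ⟩ := Nat.findGreatest_spec (P := fun ρ => ∃ (E : S.W) (j : ℕ),
    World en V ν tgd k E₀ E j ∧ j ≤ (A.card + 1) * rank en R I L (S.rich E) ∧
      rank en R I L (S.rich E) = ρ)
    (hbd _ hex.choose_spec) hex.choose_spec
  have hmax : ∀ (E : S.W) j, World en V ν tgd k E₀ E j →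
      j ≤ (A.card + 1) * rank en R I L (S.rich E) →
      rank en R I L (S.rich E) ≤ rank en R I L (S.rich Em) := by
    intro E j h1 h2
    rw [hρ]
    exact Nat.le_findGreatest (hbd _ ⟨E, j, h1, h2, rfl⟩) ⟨E, j, h1, h2, rfl⟩
  obtain ⟨E, Q, B, hWO, hQ, hQR, hBA, hB, hfr, hwr⟩ :=
    chain hd hT hAS hw hjm hmax hV hcon A.card le_rfl
  have hBA' : B = A := Finset.eq_of_subset_of_card_le hBA (by omega)
  obtain ⟨a, ha, hwa⟩ := hcon E hWO.good hWO.low
  refine hwa (hwr E (fun _ _ => rfl) (fun i' hi' => (hWO.wit i' ?_).2 hi') a (by rw [hBA']; exact ha))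
  have h1 := rank_lt (en := en) (R := R) (I := I) (L := L) (S.rich Em)
  have h2 : (A.card + 1) * (rank en R I L (S.rich Em) + 1) ≤ (A.card + 1) * (I.card + 1) ^ L :=
    Nat.mul_le_mul_left _ h1
  rw [Nat.mul_add, Nat.mul_one] at h2
  omega

/-- Worlds exist. -/
theorem exists_world (S : Sys) : ∃ E : S.W, ∀ s, S.plain E s = false := by
  choose x hx using fun n => S.ex n fun _ => false
  exact ⟨x, fun s => hx s.length s rfl⟩

theorem exists_good (S : Sys) (hν : ∀ k, 1 ≤ ν k) : ∃ E : S.W, Good en V ν tgd E := by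
  have hbad : S.bad ∅ = ∅ := by
    rw [← Finset.card_eq_zero]
    have := S.card_bad ∅
    simpa using this
  obtain ⟨E₀, hE₀⟩ := exists_world S
  obtain ⟨E, hc, -, -⟩ := comp (en := en) (V := V) (tgd := tgd) hν E₀ ∅ 0 (fun _ => false)
    (fun s hs => by omega) (by rw [hbad]; simp)
  rw [hbad] at hc
  have h1 := hc.same
  have h2 := hc.code
  refine ⟨E, ⟨?_, ?_, ?_⟩⟩
  · intro N x r w hw hO _
    exact (val_cd ((h2 _ (Nat.zero_le _) (by simp) ⟨N, x, r, w, rfl, hw⟩).1 hO)).2
  · intro N x hN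
    refine ⟨List.replicate (wl en N x.length) false, by simp, ?_⟩
    rw [h2 _ (Nat.zero_le _) (by simp) ⟨N, x, _, _, rfl, by simp⟩]
    exact ⟨N, x, _, _, rfl, by simp, rfl, hN⟩
  · intro s hs
    by_contra hcode
    rw [h1 _ (Or.inr (Or.inr hcode))] at hs
    exact absurd hs (by simp)

/-- The limit of the stages. -/
theorem exists_oracle (S : Sys) {R : ℕ → ℕ → ℕ} {L : ℕ → ℕ} {I : ℕ → Finset (ℕ × List Bool)}
    (hd : ∀ k, Data en V ν tgd k (R k) (L k) (I k)) (p : ℕ → Prog) (T : ℕ → ℕ)
    (A : ℕ → Finset (List Bool))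
    (hT : ∀ k, (I k).card * R k (L k) + V k * T k < 2 ^ (2 ^ ν k))
    (hAS : ∀ k, ∀ a ∈ A k, ∀ x : List Bool, x.length = ν k →
      (pair x a).length + T k < R k (L k))
    (hV : ∀ k, ((A k).card + 1) * ((I k).card + 1) ^ L k ≤ V k) :
    ∃ E : S.W, Good en V ν tgd E ∧ ∀ k, ∀ a ∈ A k, Wrong E (p k) (T k) (ν k) a := by
  have hmono : ∀ k, lev ν k < lev ν (k + 1) := (hd 0).levlt
  have hν : ∀ k, 1 ≤ ν k := (hd 0).pos
  have hstep : ∀ (k : ℕ) (E₀ : {E : S.W // Good en V ν tgd E}), ∃ E : {E : S.W // Good en V ν tgd E},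
      (∀ n < lev ν k, E.1 n = E₀.1 n) ∧
      ∀ a ∈ A k, Wrong E.1 (p k) (T k) (ν k) a := by
    intro k E₀
    obtain ⟨E, h1, h2, h3⟩ := stage (hd k) (p := p k) (hT k) (hAS k) (hV k) E₀.2
    exact ⟨⟨E, h1⟩, h2, h3⟩
  choose st hst1 hst2 using hstep
  obtain ⟨Eb, hEb⟩ := exists_good (en := en) (V := V) (tgd := tgd) S hν
  set G : ℕ → {E : S.W // Good en V ν tgd E} := fun k =>
    Nat.rec ⟨Eb, hEb⟩ (fun k prev => st k prev) k with hG
  have hG1 : ∀ k, G (k + 1) = st k (G k) := fun k => rfl
  have hag : ∀ k d, ∀ n < lev ν k, (G (k + 1 + d)).1 n = (G k).1 n := by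
    intro k d
    induction d with
    | zero => intro n hn; rw [add_zero, hG1]; exact hst1 k _ n hn
    | succ d ih =>
      intro n hn
      rw [show k + 1 + (d + 1) = (k + 1 + d) + 1 by ring, hG1,
        hst1 _ _ n (lt_of_lt_of_le hn (lev_mono hmono (by omega))), ih n hn]
  have hag2 : ∀ k k', k ≤ k' → ∀ n < lev ν k, (G k').1 n = (G k).1 n := by
    intro k k' hkk n hn
    rcases Nat.eq_or_lt_of_le hkk with rfl | h
    · rfl
    · obtain ⟨d, rfl⟩ : ∃ d, k' = k + 1 + d := ⟨k' - (k + 1), by omega⟩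
      exact hag k d n hn
  set E : S.W := fun n => (G (n + 1)).1 n with hE
  have hEG : ∀ k, ∀ n < lev ν k, E n = (G k).1 n := by
    intro k n hn
    have h1 : n < lev ν (n + 1) := by
      have := le_lev hmono (n + 1)
      omega
    rcases Nat.le_total k (n + 1) with h | h
    · exact hag2 _ _ h n hn
    · exact (hag2 _ _ h n h1).symm
  have hpl : ∀ k, ∀ s : List Bool, s.length < lev ν k → S.plain E s = S.plain (G k).1 s :=
    fun k s hs => plain_agree (hEG k _ hs)
  refine ⟨E, ⟨?_, ?_, ?_⟩, ?_⟩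
  · intro N x r w hw h1 h2
    set K := (cd N x r w).length + 1 with hK
    have hKl : ∀ n ≤ (cd N x r w).length, E n = (G K).1 n := fun n hn => hEG K n (by
      have := le_lev hmono K
      omega)
    have h4 : ∀ n ≤ qlen en N x.length, E n = (G K).1 n := fun n hn => hKl n (by
      have := length_lt_cd N x r w
      have := qlen_le_wl en N x.length
      omega)
    rw [tagW_agree hν h4] at h2
    rw [accN_agree h4]
    rw [plain_agree (hKl _ le_rfl)] at h1
    exact (G K).2.sound N x r w hw h1 h2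
  · intro N x hN
    set M := qlen en N x.length with hM
    have h4 : ∀ k, M + 1 ≤ k → ∀ n ≤ M, E n = (G k).1 n := fun k hk n hn =>
      hEG _ n (by
        have := le_lev hmono k
        omega)
    set K := N + 4 * x.length + 2 * (bt (tag V ν tgd (S.plain E) N M)).length + M +
      wl en N x.length + 9 with hK
    have hKM : M + 1 ≤ K := by omega
    rw [accN_agree (h4 K hKM)] at hN
    obtain ⟨w, hw, h1⟩ := (G K).2.complete N x hN
    refine ⟨w, hw, ?_⟩
    rw [← tagW_agree hν (h4 K hKM)] at h1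
    rw [hpl K]
    · exact h1
    · rw [length_cd, hw]
      have := le_lev hmono K
      omega
  · intro s hs
    rw [hpl ((false :: s).length + 1) _ (by
      have := le_lev hmono ((false :: s).length + 1)
      omega)] at hs
    exact (G ((false :: s).length + 1)).2.codes s hs
  · intro k a ha
    have h1 := hst2 k (G k) a ha
    rw [← hG1] at h1
    have h2 : ∀ n < lev ν (k + 1), (G (k + 1)).1 n = E n :=
      fun n hn => (hEG _ n hn).symm
    obtain ⟨x, hx, h3⟩ := h1
    refine ⟨x, hx, fun h4 => h3 ?_⟩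
    have e1 : x ∈ WitLang (S.plain (G (k + 1)).1) ↔ x ∈ WitLang (S.plain E) :=
      witLang_agree fun s hs => plain_agree (h2 _ (by
        rw [hx] at hs
        have := hmono k
        unfold lev at this ⊢
        omega))
    have e2 : Acc (S.rich (G (k + 1)).1) (p k) (T k) (pair x a) ↔
        Acc (S.rich E) (p k) (T k) (pair x a) := by
      have h5 : ∀ t : List Bool, t.length ≤ (pair x a).length + T k →
          S.rich (G (k + 1)).1 t = S.rich E t := fun t ht =>
        rich_agree (L := t.length) (fun n hn => h2 n (by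
          have := hAS k a ha x hx
          have := (hd k).last
          omega)) le_rfl
      exact ⟨acc_agree h5, acc_agree fun s hs => (h5 s hs).symm⟩
    rw [e1, e2]
    exact h4

end Pool.Agent.LibTA92
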