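import Pool.Agent.LibTrade92.Engine
import Pool.Agent.LibTA92.Chain

/-!
The use of the codes, and the construction of the worlds.
-/

namespace Pool.Agent.LibTA92

open Function Filter
open Pool.Agent.LibNexp hiding cd cd_injective length_lt_cd xs length_xs xs_injective census lev
  witLang_agree census_agree le_lev lev_mono exists_fix exists_notMem CodeLang census_lt ask
  length_cd pushW pushW_sound pushW_complete exists_prog' tb
open Pool.Agent.LibSpec4 (bt length_bt ask cd ask_injective cd_injective length_ask length_cd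
  length_lt_cd census lev dbl run_dbl pushW pushW_sound pushW_complete CodeLang census_lt
  short mem_short card_short lev_mono exists_prog')
open Pool.Agent.LibDown92 (NH Closed Graph)
open Pool.Agent.LibTrade92 (qlen EE wl qlen_le_wl le_EE tag tag_agree tag_eq tag_zero tag_never
  IsCode Data enc accN_iff nh_code0 code_mem tag_lt exists_lengths data_of tb itm lv vis mem_vis tg
  card_itm lev_lt frozen_lt sb_lt)
open Pool.Agent.LibAL48 (Sys)

variable {S : Sys} {en : ℕ → Prog × (ℕ → ℕ)} {V ν : ℕ → ℕ} {tgd : ℕ → ℕ → Prop} {E : S.W}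

/-- Complements of the languages in nondeterministic time `2 ^ poly(h)` with oracle `X` are in
nondeterministic time `2 ^ poly(h)` with oracle `Y`. -/
def ClosedXY (X Y : List Bool → Bool) (h : ℕ → ℕ) : Prop := ∀ L ∈ NH X h, Lᶜ ∈ NH Y h

/-- Closure under complement. -/
theorem closed_of_good {h : ℕ → ℕ} (hh : ∀ n, n ≤ h n) {e : ℕ → Prog × ℕ × Bool}
    (he0 : ∀ p c, ∃ N, e N = (p, c, false)) (hO : Good (enc h e) V ν tgd E)
    (htg : ∀ N, (e N).2.2 = false → ∀ k, ¬ tgd k N) :
    ClosedXY (S.rich E) (S.plain E) h := by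
  rintro L ⟨c, p, hp⟩
  obtain ⟨N, hN⟩ := he0 p c
  have hLN := accN_iff (O := S.rich E) (h := h) hN (L := L) (by simpa using hp)
  have htag : ∀ M, tag V ν tgd (S.plain E) N M = 0 := fun M => tag_never (htg N (by rw [hN]))
  have h1 : Lᶜ = {x | ∃ w, S.plain E (cd N x 0 w) = true} := by
    ext x
    simp only [Set.mem_compl_iff, Set.mem_ofPred_eq]
    rw [hLN]
    constructor
    · intro h2
      obtain ⟨w, -, hw⟩ := hO.complete N x h2
      rw [htag] at hw
      exact ⟨w, hw⟩
    · rintro ⟨w, h2⟩
      obtain ⟨N', x', r', w', h4, h5⟩ := hO.codes _ h2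
      obtain ⟨rfl, rfl, h6, rfl⟩ := cd_injective (show cd N x 0 w = cd N' x' r' w' from h4)
      exact hO.sound N x 0 w h5 h2 (htag _).symm
  rw [h1]
  refine nh_code0 hh hO.codes (N := N) (c := c + 1) ?_
  unfold enc
  simp [hN]

/-- The complement with the tag as advice. -/
theorem code_iff (hO : Good en V ν tgd E) (N : ℕ) (x : List Bool) : ¬ AccN en E N x ↔
    pair x (bt (tag V ν tgd (S.plain E) N (qlen en N x.length))) ∈ CodeLang (S.plain E) N := by
  constructor
  · intro h
    obtain ⟨w, -, hw⟩ := hO.complete N x h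
    exact ⟨w, hw⟩
  · rintro ⟨w, h2⟩
    obtain ⟨N', x', r', w', h4, h5⟩ := hO.codes _ h2
    obtain ⟨rfl, rfl, h6, rfl⟩ := cd_injective (show cd N x _ w = cd N' x' r' w' from h4)
    exact hO.sound N x _ w h5 h2 rfl

/-- The construction. At stage `k` the program with exponent `c` is attacked at a length `n` with
`P c n`, against all advice shorter than `α c n`, using `2 ^ v c n` advice values. -/
theorem engine (S : Sys) {h : ℕ → ℕ} (hh : ∀ n, n ≤ h n) {e : ℕ → Prog × ℕ × Bool}
    (he : ∀ N, (e N).2.1 ≤ N) (he0 : ∀ p c, ∃ N, e N = (p, c, false))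
    {α v : ℕ → ℕ → ℕ} {P : ℕ → ℕ → Prop} (hP : ∀ c, ∃ᶠ n in atTop, P c n)
    (hα : ∀ c n, P c n → α c n ≤ n + 1) (hv : ∀ c n, P c n → v c n + 1 ≤ n ∧
      2 ^ α c n * (2 ^ (c + 3) * (vis h (2 ^ (c + 3)) n).card + 1) ^ (c + 3) ≤ 2 ^ v c n) :
    ∃ E : S.W, ClosedXY (S.rich E) (S.plain E) h ∧
      (∀ N p c, e N = (p, c, true) → ∀ L : Lang,
        (∀ e : Fin 1 → List Bool, (∀ t σ', Run (S.rich E) p t (init e) σ' → e 0 ∈ L) ∧
          (e 0 ∈ L → ∃ t σ', t ≤ 2 ^ (size e ^ c + c) ∧ Run (S.rich E) p t (init e) σ')) →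
        ∃ B ∈ NEXPLang (S.plain E), ∃ f : ℕ → List Bool, (∀ x, x ∉ L ↔ pair x (f x.length) ∈ B) ∧
          ∀ m, f m = bt 0 ∨ ∃ c' n r, N < 2 ^ (c' + 3) ∧ P c' n ∧
            n ≤ m + m ^ (N + 1) + (N + 1) ∧ f m = bt r ∧ r < 2 ^ v c' n) ∧
      ∀ B ∈ NEXPLang (S.rich E), ∃ c, ∃ᶠ n in atTop, P c n ∧ ∀ a : List Bool, a.length < α c n →
        ∃ x : List Bool, x.length = n ∧ ¬ (x ∉ WitLang (S.plain E) ↔ pair x a ∈ B) := by
  classical
  have : Nonempty Prog := ⟨skip⟩
  obtain ⟨rq, hrq⟩ := exists_surjective_nat (Prog × ℕ × ℕ)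
  set c : ℕ → ℕ := fun k => (rq k).2.1 with hc
  obtain ⟨ν, hν1, hνP, hν3, hν4, hν5⟩ := exists_lengths hP h c
  set V : ℕ → ℕ := fun k => 2 ^ v (c k) (ν k) with hVdef
  have hVle : ∀ k, V k ≤ 2 ^ (ν k - 1) := fun k =>
    Nat.pow_le_pow_right (by norm_num) (by have := (hv _ _ (hνP k)).1; omega)
  have hd := data_of hh he hν1 hVle hν5
  obtain ⟨E, hO, hreq⟩ := exists_oracle S hd (fun k => (rq k).1) (fun k => tb (c k) (ν k))
    (fun k => short (α (c k) (ν k))) (fun k => hν4 k _ (hVle k))
    (fun k a ha x hx => by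
      have h1 := mem_short.1 ha
      have h2 := hα _ _ (hνP k)
      have h3 := hν3 k
      rw [length_pair, hx]
      omega)
    (fun k => by
      have h1 := (hv _ _ (hνP k)).2
      rw [card_itm]
      refine le_trans (Nat.mul_le_mul_right _ ?_) h1
      have := card_short (α (c k) (ν k))
      omega)
  have hmono := lev_lt hν1 hν5
  refine ⟨E, closed_of_good hh he0 hO (fun N hN k hk => by rw [hk.1] at hN; simp at hN), ?_, ?_⟩
  · intro N p c0 hN L hp
    have hLN := accN_iff (O := S.rich E) (h := h) hN (L := L) (by simpa using hp)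
    refine ⟨CodeLang (S.plain E) N,
      code_mem hO.codes (c := c0 + 1) (by unfold enc; simp [hN]),
      fun n => bt (tag V ν (tg e c) (S.plain E) N (qlen (enc h e) N n)), fun x => ?_, fun m => ?_⟩
    · rw [hLN]
      exact code_iff hO N x
    · rcases tag_lt (V := V) (tgd := tg e c) (fun k => Nat.one_le_two_pow) hmono (S.plain E) N
        (qlen (enc h e) N m) with h1 | ⟨k, h1, h2, h3⟩
      · left
        show bt _ = _
        rw [h1]
      · right
        refine ⟨c k, ν k, _, h2.2, hνP k, ?_, rfl, h3⟩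
        have h4 := le_EE h1
        have h5 : EE (enc h e) N m = m + (m ^ (c0 + 1) + (c0 + 1)) := by
          unfold EE enc
          simp [hN]
        have h6 : c0 ≤ N := by
          have := he N
          rw [hN] at this
          exact this
        have h7 : m ^ (c0 + 1) ≤ m ^ (N + 1) := by
          rcases Nat.eq_zero_or_pos m with rfl | hm
          · rw [Nat.zero_pow (by omega)]; exact Nat.zero_le _
          · exact Nat.pow_le_pow_right hm (by omega)
        omega
  · intro B hB
    obtain ⟨p, c0, hp⟩ := exists_prog' hB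
    refine ⟨c0, ?_⟩
    rw [frequently_atTop]
    intro m
    have hνmono : ∀ k, k ≤ ν k := by
      intro k
      induction k with
      | zero => exact Nat.zero_le _
      | succ k ih =>
        have h1 := hν5 k
        have h2 : ν k ≤ lv (ν k) (c k + 3) := by
          unfold lv
          calc ν k ≤ ν k ^ 2 ^ (c k + 3) := Nat.le_self_pow (by positivity) _
            _ ≤ 2 ^ (ν k ^ 2 ^ (c k + 3)) := Nat.lt_two_pow_self.le
        omega
    have hex : ∃ k, m ≤ k ∧ (rq k).1 = p ∧ (rq k).2.1 = c0 := by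
      by_contra hcon
      push Not at hcon
      choose g hg using fun j : ℕ => hrq (p, c0, j)
      have hginj : Injective g := by
        intro j j' h
        have h1 := hg j
        rw [h, hg j'] at h1
        simpa using h1.symm
      have hlt : ∀ j, g j < m := by
        intro j
        by_contra hge
        push Not at hge
        refine hcon (g j) hge ?_ ?_
        · rw [hg j]
        · rw [hg j]
      have hcc := Finset.card_le_card_of_injOn (s := Finset.range (m + 1)) (t := Finset.range m) g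
        (fun j _ => Finset.mem_coe.2 (Finset.mem_range.2 (hlt j))) (fun j _ j' _ h => hginj h)
      rw [Finset.card_range, Finset.card_range] at hcc
      omega
    obtain ⟨k, hk, hk1, hk2⟩ := hex
    have hck : c k = c0 := hk2
    have hPk := hνP k
    rw [hck] at hPk
    refine ⟨ν k, le_trans hk (hνmono k), hPk, fun a ha => ?_⟩
    obtain ⟨x, hx, h2⟩ := hreq k a (mem_short.2 (by rw [hck]; exact ha))
    refine ⟨x, hx, fun h3 => h2 ?_⟩
    rw [h3, hk1, hck]
    refine hp _ _ ?_
    unfold tb
    refine Nat.pow_le_pow_right (by norm_num) (Nat.add_le_add_right (Nat.pow_le_pow_left ?_ c0) c0)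
    rw [length_pair, hx]
    have := hα _ _ hPk
    omega

end Pool.Agent.LibTA92
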