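import Pool.Agent.LibTrade92.Sharp
import Pool.Agent.LibTA92.Use

/-!
The worlds.
-/

namespace Pool.Agent.LibTA92

open Function Filter
open Pool.Agent.LibNexp hiding lev lev_mono CodeLang exists_prog'
open Pool.Agent.LibSpec4 (lev short mem_short card_short lev_mono bt CodeLang exists_prog'
  length_bt)
open Pool.Agent.LibDown92 (NH Closed Graph)
open Pool.Agent.LibNexp55 (BH levels)
open Pool.Agent.LibTrade92 (poly_lt_two_pow exists_enum exists_enum' vb vb_bound vb_mul vb_le key_sharp vis mem_vis)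
open Pool.Agent.LibAL48 (Sys)

variable {S : Sys}

/-- `a n` bits of advice, up to an additive constant depending on the language, are enough to
complement the languages in nondeterministic exponential time with oracle `X` in nondeterministic
exponential time with oracle `Y`. -/
def EnoughXY (X Y : List Bool → Bool) (a : ℕ → ℕ) : Prop :=
  ∀ L ∈ NEXPLang X, ∃ c : ℕ, Lᶜ ∈ WithAdvice (NEXPLang Y) {f | ∀ n, (f n).length ≤ a n + c}

/-- Two advice values are enough. -/
def TwoXY (X Y : List Bool → Bool) : Prop :=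
  ∀ L ∈ NEXPLang X, ∃ A : Finset (List Bool), A.card ≤ 2 ∧
    Lᶜ ∈ WithAdvice (NEXPLang Y) {f | ∀ n, f n ∈ A}

/-- A language without a complement in the class. -/
theorem not_closed {X Y : List Bool → Bool} {Q : ℕ → ℕ → Prop} {α : ℕ → ℕ → ℕ}
    (hα : ∀ c n, Q c n → 1 ≤ α c n)
    (h : ∀ B ∈ NEXPLang Y, ∃ c, ∃ᶠ n in atTop, Q c n ∧ ∀ a : List Bool, a.length < α c n →
        ∃ x : List Bool, x.length = n ∧ ¬ (x ∉ WitLang X ↔ pair x a ∈ B)) :
    WitLang X ∈ NEXPLang X ∧ (WitLang X)ᶜ ∉ NEXPLang Y := by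
  refine ⟨Pool.Agent.LibSpec30.witLang_mem', fun hc => ?_⟩
  obtain ⟨B, hB, hBR⟩ := rel_of_nexp (O := Y) (C := fun x _ => x ∈ (WitLang X)ᶜ)
    (nexp_mem (k := 2) hc 0)
  obtain ⟨c, hcf⟩ := h B hB
  obtain ⟨n, hn, h1⟩ := hcf.exists
  obtain ⟨x, -, h2⟩ := h1 [] (by
    have := hα c n hn
    rw [List.length_nil]
    omega)
  exact h2 (by rw [hBR]; exact Iff.rfl)

/-- The sharpness of the trade-off. -/
theorem sharp (S : Sys) {h : ℕ → ℕ} (hs : StrictMono h) {s : ℕ → ℕ} (hsm : Monotone s)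
    (hsn : ∀ n, s n ≤ n) (hsC : ∀ C, 1 ≤ C → ∃ᶠ n in atTop, n ^ C ≤ h (s n / C)) :
    ∃ E : S.W, ClosedXY (S.rich E) (S.plain E) h ∧ EnoughXY (S.rich E) (S.plain E) s ∧
      WitLang (S.plain E) ∈ NEXPLang (S.plain E) ∧
        (WitLang (S.plain E))ᶜ ∉ NEXPLang (S.rich E) := by
  have hh : ∀ n, n ≤ h n := fun n => hs.id_le n
  obtain ⟨e, he, he2⟩ := exists_enum
  have key : ∀ c, ∃ᶠ n in atTop, vb h c n + 1 + 1 ≤ n ∧
      ∀ m, n ≤ m + m ^ 2 ^ (c + 3) + 2 ^ (c + 3) → 1 + vb h c n ≤ s m := by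
    intro c
    rw [frequently_atTop]
    intro b
    set K := 2 ^ (c + 3) with hK
    set C := 2 * (K * (K + 1)) with hC
    have hKpos : 1 ≤ K := Nat.one_le_two_pow
    have hC1 : 1 ≤ C := by
      have : 1 * 1 ≤ K * (K + 1) := Nat.mul_le_mul hKpos (by omega)
      omega
    obtain ⟨m, hmC, hmge⟩ := ((hsC C hC1).and_eventually
      (eventually_ge_atTop (b + 2 + h (2 * ((c + 3) * K + 2))))).exists
    have hsm2 : 2 * ((c + 3) * K + 2) ≤ s m := by
      have h1 : h (2 * ((c + 3) * K + 2)) ≤ h (s m / C) := by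
        have h2 : m ≤ m ^ C := Nat.le_self_pow (by omega) m
        omega
      exact le_trans (hs.le_iff_le.1 h1) (Nat.div_le_self _ _)
    have hv : vb h c (m + m ^ K + K) + 2 ≤ s m :=
      key_sharp hs hmC hsm2 (by omega) le_rfl
    refine ⟨m + m ^ K + K, by omega, ?_, fun m' hm' => ?_⟩
    · have := hsn m
      omega
    · have h1 : m ≤ m' := by
        by_contra hlt
        push Not at hlt
        have := Nat.pow_le_pow_left hlt.le K
        omega
      have := hsm h1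
      omega
  obtain ⟨E, h1, h2, h3⟩ := engine S hh he2 (fun p c => he (p, c, false))
    (α := fun _ _ => 1) (v := fun c n => 1 + vb h c n)
    (P := fun c n => vb h c n + 1 + 1 ≤ n ∧
      ∀ m, n ≤ m + m ^ 2 ^ (c + 3) + 2 ^ (c + 3) → 1 + vb h c n ≤ s m)
    key (fun c n hn => by omega)
    (fun c n hn => ⟨by omega, vb_mul h 1 c n⟩)
  refine ⟨E, h1, ?_, not_closed (fun _ _ _ => le_rfl) h3⟩
  rintro L ⟨c, p, hp⟩
  obtain ⟨N, hN⟩ := he (p, c, true)
  obtain ⟨B, hB, f, hf, hlen⟩ := h2 N p c hN L hp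
  refine ⟨0, B, hB, f, fun m => ?_, ?_⟩
  · rcases hlen m with h4 | ⟨c', n, r, h4, h5, h6, h7, h8⟩
    · have : (bt 0).length ≤ 0 := length_bt (s := 0) (by norm_num)
      rw [h4]
      omega
    · rw [h7]
      refine le_trans (length_bt h8) ?_
      refine le_trans (h5.2 m (le_trans h6 ?_)) (by omega)
      have h9 : m ^ (N + 1) ≤ m ^ 2 ^ (c' + 3) := by
        rcases Nat.eq_zero_or_pos m with rfl | hm
        · rw [Nat.zero_pow (by omega)]; exact Nat.zero_le _
        · exact Nat.pow_le_pow_right hm (by omega)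
      omega
  · ext x
    show x ∉ L ↔ pair x (f x.length) ∈ B
    exact hf x

/-- Two advice values are not enough if `h` has large gaps. -/
theorem gap (S : Sys) {h : ℕ → ℕ} (hs : StrictMono h)
    (hK : ∀ K, ∃ n, h n ^ K + K < h (n + 1)) :
    ∃ E : S.W, ClosedXY (S.rich E) (S.plain E) h ∧ TwoXY (S.rich E) (S.plain E) ∧
      WitLang (S.plain E) ∈ NEXPLang (S.plain E) ∧
        (WitLang (S.plain E))ᶜ ∉ NEXPLang (S.rich E) := by
  have hh : ∀ n, n ≤ h n := fun n => hs.id_le n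
  obtain ⟨e, he, he2⟩ := exists_enum
  have key : ∀ c, ∃ᶠ n in atTop, 2 ≤ n ∧ vis h (2 ^ (c + 3)) n = ∅ := by
    intro c
    set K := 2 ^ (c + 3) with hKdef
    rw [frequently_atTop]
    intro b
    obtain ⟨K', hK'⟩ : PolyB fun a => ((a + 2) ^ (K + 2) + (2 + b)) ^ K :=
      ((((PolyB.id.add (PolyB.const 2)).pow (K + 2)).add (PolyB.const (2 + b)))).pow K
    obtain ⟨n₀, hn₀⟩ := hK K'
    have h4 := hK' (h n₀)
    beta_reduce at h4
    refine ⟨(h n₀ + 2) ^ (K + 2) + (2 + b), by omega, by omega, ?_⟩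
    rw [Finset.eq_empty_iff_forall_notMem]
    intro x hx
    rw [mem_vis hh] at hx
    have h5 : x.length < n₀ + 1 := hs.lt_iff_lt.1 (by omega)
    have h6 : h x.length ≤ h n₀ := hs.monotone (by omega)
    have h7 : (h x.length + 2) ^ (K + 2) ≤ (h n₀ + 2) ^ (K + 2) :=
      Nat.pow_le_pow_left (by omega) _
    omega
  obtain ⟨E, h1, h2, h3⟩ := engine S hh he2 (fun p c => he (p, c, false))
    (α := fun _ _ => 1) (v := fun c n => 1)
    (P := fun c n => 2 ≤ n ∧ vis h (2 ^ (c + 3)) n = ∅)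
    key (fun c n hn => by omega) (fun c n hn => ⟨by omega, by simp [hn.2]⟩)
  refine ⟨E, h1, ?_, not_closed (fun _ _ _ => le_rfl) h3⟩
  rintro L ⟨c, p, hp⟩
  obtain ⟨N, hN⟩ := he (p, c, true)
  obtain ⟨B, hB, f, hf, hlen⟩ := h2 N p c hN L hp
  refine ⟨{bt 0, bt 1}, Finset.card_le_two, B, hB, f, fun m => ?_, ?_⟩
  · rw [Finset.mem_insert, Finset.mem_singleton]
    rcases hlen m with h4 | ⟨c', n, r, h4, h5, h6, h7, h8⟩
    · exact Or.inl h4
    · have : r = 0 ∨ r = 1 := by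
        have : r < 2 := by simpa using h8
        omega
      rcases this with rfl | rfl
      · exact Or.inl h7
      · exact Or.inr h7
  · ext x
    show x ∉ L ↔ pair x (f x.length) ∈ B
    exact hf x

/-- Closure of doubly exponential time saves only `O(log n)` bits. -/
theorem top_sharp (S : Sys) : ∃ E : S.W, ClosedXY (S.rich E) (S.plain E) (fun n => 2 ^ n) ∧
    ∀ a : ℕ → ℕ, (∀ C, ∀ᶠ n in atTop, a n + C * Nat.log 2 (n + 1) ≤ n) →
      ¬ EnoughXY (S.plain E) (S.rich E) a := by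
  have hh : ∀ n, n ≤ 2 ^ n := fun n => Nat.lt_two_pow_self.le
  obtain ⟨e, he, he2, he3⟩ := exists_enum'
  have hvb : ∀ c n, vb (fun n => 2 ^ n) c n ≤
      (c + 3) * 2 ^ (c + 3) * (Nat.log 2 (n + 1) + 2) := by
    intro c n
    set K := 2 ^ (c + 3) with hK
    have h4 := vb_le (h := fun n => 2 ^ n) (c := c) (n := n) (b := K * (Nat.log 2 (n + 1) + 1))
      (fun x hx => by
        rw [mem_vis hh] at hx
        have h5 : n ^ 2 ^ (c + 3) ≤ 2 ^ (K * (Nat.log 2 (n + 1) + 1)) := by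
          rw [← hK, mul_comm, pow_mul]
          refine Nat.pow_le_pow_left ?_ K
          exact (lt_trans (Nat.lt_succ_self n)
            (Nat.lt_pow_succ_log_self (by norm_num) (n + 1))).le
        exact (Nat.pow_lt_pow_iff_right (by norm_num : 1 < 2)).1 (lt_of_lt_of_le hx.1 h5))
    refine le_trans h4 (le_of_eq ?_)
    rw [← hK]
    ring
  have key : ∀ c, ∀ᶠ n in atTop, vb (fun n => 2 ^ n) c n + 1 + 1 ≤ n := by
    intro c
    set A := (c + 3) * 2 ^ (c + 3) with hA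
    obtain ⟨l₀, hl₀⟩ := eventually_atTop.1 (poly_lt_two_pow 2 (2 * A + 4))
    filter_upwards [eventually_ge_atTop (2 ^ l₀)] with n hn
    have h4 := hvb c n
    rw [← hA] at h4
    set l := Nat.log 2 (n + 1) with hl
    have h5 : l₀ ≤ l := Nat.le_log_of_pow_le (by norm_num) (by omega)
    have h6 := hl₀ l h5
    have h7 : 2 ^ l ≤ n + 1 := Nat.pow_log_le_self 2 (by omega)
    have h8 : A * (l + 2) + 4 ≤ (l + (2 * A + 4)) ^ 2 := by nlinarith
    omega
  obtain ⟨E, h1, h2, h3⟩ := engine S hh he2 he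
    (α := fun c n => n - 1 - vb (fun n => 2 ^ n) c n) (v := fun c n => n - 1)
    (P := fun c n => vb (fun n => 2 ^ n) c n + 1 + 1 ≤ n)
    (fun c => (key c).frequently) (fun c n hn => by omega) (fun c n hn => ⟨by omega, by
      have h4 := vb_mul (fun n => 2 ^ n) (n - 1 - vb (fun n => 2 ^ n) c n) c n
      have h5 : (n - 1 - vb (fun n => 2 ^ n) c n) + vb (fun n => 2 ^ n) c n = n - 1 := by omega
      rw [h5] at h4
      exact h4⟩)
  refine ⟨E, h1, fun a ha hE => ?_⟩
  obtain ⟨c0, B, hB, f, hf, hfB⟩ := hE _ Pool.Agent.LibSpec30.witLang_mem'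
  obtain ⟨c, hc⟩ := h3 B hB
  obtain ⟨n, ⟨h4, h5⟩, h6, h7⟩ := (hc.and_eventually
    ((ha ((c + 3) * 2 ^ (c + 3) * 3 + c0 + 2)).and (eventually_ge_atTop 1))).exists
  have hlen : (f n).length ≤ a n + c0 := hf n
  obtain ⟨x, hx, h8⟩ := h5 (f n) (by
    have h9 := hvb c n
    have h10 : 1 ≤ Nat.log 2 (n + 1) := Nat.log_pos (by norm_num) (by omega)
    set A := (c + 3) * 2 ^ (c + 3) with hA
    set l := Nat.log 2 (n + 1) with hl
    have h11 : A * (l + 2) ≤ A * (3 * l) := Nat.mul_le_mul_left _ (by omega)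
    have h12 : (A * 3 + c0 + 2) * l = A * (3 * l) + (c0 + 2) * l := by ring
    have h13 : (c0 + 2) * 1 ≤ (c0 + 2) * l := Nat.mul_le_mul_left _ h10
    show (f n).length < n - 1 - vb (fun n => 2 ^ n) c n
    omega)
  refine h8 ?_
  have h9 := Set.ext_iff.1 hfB x
  rw [Set.mem_compl_iff] at h9
  rw [← hx]
  exact h9

end Pool.Agent.LibTA92
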