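import Pool.Agent.LibTrade92.Main
import Pool.Agent.LibTA92.Sharp
import Pool.Agent.LibAL48.Ext
import Pool.Agent.LibAL48.Sub

/-!
The main theorems, for oracles and their extensions by polynomials.
-/

namespace Pool.Agent.LibTA92

open Function Filter
open Pool.Agent.LibNexp hiding lev lev_mono CodeLang exists_prog'
open Pool.Agent.LibDown92 (NH Closed Graph down_h)
open Pool.Agent.LibSpec30 (Enough)
open Pool.Agent.LibNexp55 (BH levels)
open Pool.Agent.LibAL48 (Sys sys Fields IsExt ext world_spec ntime_tr)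

/-- The complements of the languages in `NEXP^X` are in `NEXP^Y`. -/
def Q1XY (X Y : List Bool → Bool) : Prop := ∀ L ∈ NEXPLang X, Lᶜ ∈ NEXPLang Y

variable {O Ω : List Bool → Bool}

theorem three_bound (a c : ℕ) : 3 * 2 ^ (a ^ c + c) ≤ 2 ^ (a ^ (c + 3) + (c + 3)) := by
  have h1 : a ^ c + c + 2 ≤ a ^ (c + 3) + (c + 3) := by
    rcases Nat.eq_zero_or_pos a with rfl | ha
    · rcases Nat.eq_zero_or_pos c with rfl | hc
      · norm_num
      · rw [Nat.zero_pow hc, Nat.zero_pow (by omega)]; omega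
    · have h1 : a ^ c ≤ a ^ (c + 3) := Nat.pow_le_pow_right ha (by omega)
      omega
  calc 3 * 2 ^ (a ^ c + c) ≤ 2 ^ 2 * 2 ^ (a ^ c + c) := Nat.mul_le_mul_right _ (by norm_num)
    _ = 2 ^ (a ^ c + c + 2) := by rw [← pow_add]; congr 1; omega
    _ ≤ _ := Nat.pow_le_pow_right (by norm_num) h1

theorem nh_sub (h : ∀ u, Ω (false :: u) = O u) {g : ℕ → ℕ} : NH O g ⊆ NH Ω g := by
  rintro L ⟨c, hc⟩
  exact ⟨c + 3, (ntime_tr h hc).mono fun n => three_bound (g n) c⟩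

theorem nexp_sub (h : ∀ u, Ω (false :: u) = O u) : NEXPLang O ⊆ NEXPLang Ω := by
  rintro L ⟨c, hc⟩
  exact ⟨c + 3, (ntime_tr h hc).mono fun n => three_bound n c⟩

theorem ClosedXY.anti {X X' Y Y' : List Bool → Bool} {g : ℕ → ℕ} (hX : NH X' g ⊆ NH X g)
    (hY : NH Y g ⊆ NH Y' g) (h : ClosedXY X Y g) : ClosedXY X' Y' g :=
  fun L hL => hY (h L (hX hL))

theorem EnoughXY.anti {X X' Y Y' : List Bool → Bool} {s : ℕ → ℕ}
    (hX : NEXPLang X' ⊆ NEXPLang X) (hY : NEXPLang Y ⊆ NEXPLang Y') (h : EnoughXY X Y s) :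
    EnoughXY X' Y' s := by
  intro L hL
  obtain ⟨c, B, hB, f, hf, heq⟩ := h L (hX hL)
  exact ⟨c, B, hY hB, f, hf, heq⟩

theorem TwoXY.anti {X X' Y Y' : List Bool → Bool}
    (hX : NEXPLang X' ⊆ NEXPLang X) (hY : NEXPLang Y ⊆ NEXPLang Y') (h : TwoXY X Y) :
    TwoXY X' Y' := by
  intro L hL
  obtain ⟨A, hA, B, hB, f, hf, heq⟩ := h L (hX hL)
  exact ⟨A, hA, B, hY hB, f, hf, heq⟩

theorem bh_two {X : List Bool → Bool} (h : TwoXY X X) : ∀ L ∈ BH X 2, Lᶜ ∈ BH X 2 :=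
  ((levels X (m := 2) (by norm_num)).out 0 3).2 h

/-- Which closure under complement of a larger class together with how much advice is enough for
every oracle, or for every extension of an oracle by polynomials over the fields of a family? -/
theorem trade {h s : ℕ → ℕ} (hs : StrictMono h)
    (hg : NEXP (fun _ => false) fun e : Fin 2 → List Bool => (e 1).length = h (e 0).length)
    (hsm : Monotone s) (hsn : ∀ n, s n ≤ n) (𝕂 : Fields) : List.TFAE [
    ∀ O : List Bool → Bool, ClosedXY O O h → EnoughXY O O s → Q1XY O O,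
    ∀ (O : List Bool → Bool) (P : ∀ s n, MvPolynomial (Fin n) (𝕂.K s)), IsExt 𝕂 O P →
      ClosedXY (ext 𝕂 O P) O h → EnoughXY (ext 𝕂 O P) O s → Q1XY O (ext 𝕂 O P),
    (∃ K : ℕ, ∀ n, h (n + 1) ≤ h n ^ K + K) ∧ ∃ C : ℕ, 1 ≤ C ∧ ∀ n, h (s n / C) ≤ n ^ C + C] := by
  have hmain := LibTrade92.trade hs hg hsm hsn
  tfae_have 1 → 2 := by
    intro h1 O P _ h2 h3 L hL
    have hsub : NEXPLang O ⊆ NEXPLang (ext 𝕂 O P) := nexp_sub fun _ => rfl
    have hsub2 : NH O h ⊆ NH (ext 𝕂 O P) h := nh_sub (O := O) (Ω := ext 𝕂 O P) fun _ => rfl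
    exact hsub (h1 O (h2.anti hsub2 subset_rfl) (h3.anti hsub subset_rfl) L hL)
  tfae_have 3 → 1 := fun h3 => hmain.2 h3
  tfae_have 2 → 3 := by
    intro hall
    constructor
    · by_contra hK
      push Not at hK
      obtain ⟨E, h1, h2, h3, h4⟩ := gap (sys 𝕂) hs hK
      obtain ⟨h5, h6⟩ := world_spec E
      rw [h6] at h1 h2 h4
      refine h4 (hall _ _ h5 h1 (fun L hL => ?_) _ h3)
      obtain ⟨A, -, B, hB, f, hf, hfB⟩ := h2 L hL
      exact ⟨A.sup List.length, B, hB, f, fun n => le_trans (Finset.le_sup (f := List.length) (hf n))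
        (Nat.le_add_left _ _), hfB⟩
    · by_contra hC
      push Not at hC
      obtain ⟨E, h1, h2, h3, h4⟩ := sharp (sys 𝕂) hs hsm hsn (by
        intro C hC1
        rw [frequently_atTop]
        intro b
        obtain ⟨n, hn⟩ := hC (max C (h (s b) + 1)) (by omega)
        set C' := max C (h (s b) + 1) with hC'
        have hCC : C ≤ C' := le_max_left _ _
        have hsC' : h (s b) + 1 ≤ C' := le_max_right _ _
        have h4 : h (s n / C') ≤ h (s n) := hs.monotone (Nat.div_le_self _ _)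
        have h5 : s b < s n := hs.lt_iff_lt.1 (by omega)
        have h6 : b < n := by
          by_contra hge
          push Not at hge
          have := hsm hge
          omega
        refine ⟨n, h6.le, ?_⟩
        have h7 : n ^ C ≤ n ^ C' := Nat.pow_le_pow_right (by omega) hCC
        have h8 : h (s n / C') ≤ h (s n / C) :=
          hs.monotone (Nat.div_le_div_left hCC (by omega))
        omega)
      obtain ⟨h5, h6⟩ := world_spec E
      rw [h6] at h1 h2 h4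
      exact h4 (hall _ _ h5 h1 h2 _ h3)
  tfae_finish

/-- The same for the collapse of the Boolean hierarchy. -/
theorem trade_bh {h : ℕ → ℕ} (hs : StrictMono h)
    (hg : NEXP (fun _ => false) fun e : Fin 2 → List Bool => (e 1).length = h (e 0).length)
    (𝕂 : Fields) :
    List.TFAE [∀ (O : List Bool → Bool) (m : ℕ), 1 ≤ m → ClosedXY O O h →
        (∀ L ∈ BH O m, Lᶜ ∈ BH O m) → Q1XY O O,
      ∀ O : List Bool → Bool, ClosedXY O O h → (∀ L ∈ BH O 2, Lᶜ ∈ BH O 2) → Q1XY O O,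
      ∀ (O : List Bool → Bool) (P : ∀ s n, MvPolynomial (Fin n) (𝕂.K s)), IsExt 𝕂 O P →
        ClosedXY (ext 𝕂 O P) O h → (∀ L ∈ BH O 2, Lᶜ ∈ BH O 2) →
        (∀ L ∈ BH (ext 𝕂 O P) 2, Lᶜ ∈ BH (ext 𝕂 O P) 2) → Q1XY O (ext 𝕂 O P),
      ∃ K : ℕ, ∀ n, h (n + 1) ≤ h n ^ K + K] := by
  have hmain := LibTrade92.trade_bh hs hg
  tfae_have 1 ↔ 2 := hmain.out 0 1
  tfae_have 4 → 2 := fun h4 => (hmain.out 1 2).2 h4
  tfae_have 2 → 3 := by
    intro h1 O P _ h2 h3 _ L hL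
    have hsub : NEXPLang O ⊆ NEXPLang (ext 𝕂 O P) := nexp_sub fun _ => rfl
    have hsub2 : NH O h ⊆ NH (ext 𝕂 O P) h := nh_sub (O := O) (Ω := ext 𝕂 O P) fun _ => rfl
    exact hsub (h1 O (h2.anti hsub2 subset_rfl) h3 L hL)
  tfae_have 3 → 4 := by
    intro hall
    by_contra hK
    push Not at hK
    obtain ⟨E, h1, h2, h3, h4⟩ := gap (sys 𝕂) hs hK
    obtain ⟨h5, h6⟩ := world_spec E
    rw [h6] at h1 h2 h4
    have hsub : NEXPLang ((sys 𝕂).plain E) ⊆ NEXPLang (ext 𝕂 ((sys 𝕂).plain E)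
      (fun s n => (E n).1.2 s)) := nexp_sub fun _ => rfl
    exact h4 (hall _ _ h5 h1 (bh_two (h2.anti hsub subset_rfl)) (bh_two (h2.anti subset_rfl hsub))
      _ h3)
  tfae_finish

/-- Closure of doubly exponential time saves only `O(log n)` bits. -/
theorem top_sharp_ext (𝕂 : Fields) : ∃ (O : List Bool → Bool)
    (P : ∀ s n, MvPolynomial (Fin n) (𝕂.K s)), IsExt 𝕂 O P ∧
    ClosedXY (ext 𝕂 O P) O (fun n => 2 ^ n) ∧
    ∀ a : ℕ → ℕ, (∀ C, ∀ᶠ n in atTop, a n + C * Nat.log 2 (n + 1) ≤ n) →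
      ¬ EnoughXY O (ext 𝕂 O P) a := by
  obtain ⟨E, h1, h2⟩ := top_sharp (sys 𝕂)
  obtain ⟨h5, h6⟩ := world_spec E
  rw [h6] at h1 h2
  exact ⟨_, _, h5, h1, h2⟩

end Pool.Agent.LibTA92
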