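import Pool.Agent.LibTA92.Main

/-!
Closure of doubly exponential time pays for exactly a logarithmic number of bits of advice.
-/

namespace Pool.Agent.LibTA92

open Function Filter
open Pool.Agent.LibNexp hiding lev lev_mono CodeLang exists_prog'
open Pool.Agent.LibDown92 (NH Closed Graph down_h)
open Pool.Agent.LibSpec30 (Enough)
open Pool.Agent.LibAL48 (Sys sys Fields IsExt ext world_spec ntime_tr)
open Pool.Agent.LibDual85 (nexp_twoPow)

theorem sq_le_two_pow (L : ℕ) (h : 4 ≤ L) : L * L ≤ 2 ^ L := by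
  induction L, h using Nat.le_induction with
  | base => norm_num
  | succ n hn ih =>
    rw [pow_succ]
    nlinarith

theorem log_small (D E : ℕ) : ∃ N, ∀ n, N ≤ n → D * Nat.log 2 (n + 1) + E < n := by
  refine ⟨2 ^ (D + E + 5), fun n hn => ?_⟩
  have h1 : D + E + 5 ≤ Nat.log 2 (n + 1) :=
    Nat.le_log_of_pow_le (by norm_num) (by omega)
  have h2 : 2 ^ Nat.log 2 (n + 1) ≤ n + 1 := Nat.pow_log_le_self 2 (by omega)
  have h3 := sq_le_two_pow (Nat.log 2 (n + 1)) (by omega)
  set L := Nat.log 2 (n + 1)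
  have h4 : (D + E + 5) * L ≤ L * L := Nat.mul_le_mul_right _ h1
  have h5 : E * 1 ≤ E * L := Nat.mul_le_mul_left _ (by omega)
  have h6 : (D + E + 5) * L = D * L + E * L + 5 * L := by ring
  omega

theorem log_bound {C n a : ℕ} (h : 2 ^ (a / C) ≤ n ^ C + C) (hC : 1 ≤ C) :
    a ≤ C * C * Nat.log 2 (n + 1) + (2 * (C * C) + C) := by
  set L := Nat.log 2 (n + 1) with hL
  have h1 : n + 1 < 2 ^ (L + 1) := Nat.lt_pow_succ_log_self (by norm_num) _
  have h2 : n ^ C ≤ 2 ^ ((L + 1) * C) := by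
    rw [pow_mul]
    exact Nat.pow_le_pow_left (by omega) C
  have h3 : C < 2 ^ C := Nat.lt_two_pow_self
  have h4 : 2 ^ ((L + 1) * C) + 2 ^ C ≤ 2 ^ ((L + 1) * C + C) := by
    rw [pow_add]
    have h5 : 2 ^ 1 ≤ 2 ^ ((L + 1) * C) :=
      Nat.pow_le_pow_right (by norm_num) (Nat.mul_pos (Nat.succ_pos _) hC)
    have h6 : 2 ^ 1 ≤ 2 ^ C := Nat.pow_le_pow_right (by norm_num) hC
    nlinarith
  have h7 : 2 ^ (a / C) ≤ 2 ^ ((L + 1) * C + C) := by omega
  have h8 : a / C ≤ (L + 1) * C + C := (Nat.pow_le_pow_iff_right (by norm_num)).1 h7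
  have h9 : a < C * (a / C) + C := by
    have := Nat.lt_mul_div_succ a (by omega : 0 < C)
    rw [Nat.mul_add, Nat.mul_one] at this
    exact this
  have h10 : C * (a / C) ≤ C * ((L + 1) * C + C) := Nat.mul_le_mul_left _ h8
  have h11 : C * ((L + 1) * C + C) = C * C * L + 2 * (C * C) := by ring
  omega

theorem enoughXY_mono {X Y : List Bool → Bool} {s t : ℕ → ℕ} {d : ℕ}
    (hst : ∀ n, s n ≤ t n + d) (h : EnoughXY X Y s) : EnoughXY X Y t := by
  intro L hL
  obtain ⟨c, B, hB, f, hf, heq⟩ := h L hL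
  refine ⟨c + d, B, hB, f, fun n => ?_, heq⟩
  have h1 := hf n
  have h2 := hst n
  show (f n).length ≤ t n + (c + d)
  have h3 : (f n).length ≤ s n + c := h1
  omega

/-- Closure of doubly exponential time pays for exactly a logarithmic number of bits. -/
theorem trade_two {s : ℕ → ℕ} (hsm : Monotone s) (𝕂 : Fields) : List.TFAE [
    ∀ O : List Bool → Bool, ClosedXY O O (fun n => 2 ^ n) → EnoughXY O O s → Q1XY O O,
    ∀ (O : List Bool → Bool) (P : ∀ s n, MvPolynomial (Fin n) (𝕂.K s)), IsExt 𝕂 O P →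
      ClosedXY (ext 𝕂 O P) O (fun n => 2 ^ n) → EnoughXY (ext 𝕂 O P) O s →
      Q1XY O (ext 𝕂 O P),
    ∃ C : ℕ, ∀ n, s n ≤ C * Nat.log 2 (n + 1) + C] := by
  have hmin : Monotone fun n => min (s n) n := fun a b hab => min_le_min (hsm hab) hab
  have hT := trade (h := fun n => 2 ^ n) (s := fun n => min (s n) n)
    LibTrade92.strict_two (nexp_twoPow 0 1) hmin (fun n => min_le_right _ _) 𝕂
  tfae_have 1 → 2 := by
    intro h1 O P _ h2 h3 L hL
    have hsub : NEXPLang O ⊆ NEXPLang (ext 𝕂 O P) := nexp_sub fun _ => rfl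
    have hsub2 : NH O (fun n => 2 ^ n) ⊆ NH (ext 𝕂 O P) (fun n => 2 ^ n) :=
      nh_sub (O := O) (Ω := ext 𝕂 O P) fun _ => rfl
    exact hsub (h1 O (h2.anti hsub2 subset_rfl) (h3.anti hsub subset_rfl) L hL)
  tfae_have 3 → 1 := by
    rintro ⟨C, hC⟩ O h2 h3
    have h4 := (LibTrade92.log_list O).out 0 1
    exact h4.2 ⟨h2, C, enoughXY_mono hC h3⟩
  tfae_have 2 → 3 := by
    intro h2
    have h3 := (hT.out 1 2).1 (fun O P hP h4 h5 => h2 O P hP h4
      (enoughXY_mono (d := 0) (fun n => min_le_left _ _) h5))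
    obtain ⟨-, C, hC1, hC⟩ := h3
    obtain ⟨N, hN⟩ := log_small (C * C) (2 * (C * C) + C)
    refine ⟨C * C + (2 * (C * C) + C) + s N, fun n => ?_⟩
    have h6 := log_bound (hC n) hC1
    rcases le_total n N with hn | hn
    · have h7 := hsm hn
      exact le_trans h7 (by omega)
    · have h7 := hN n hn
      have h8 : s n ≤ C * C * Nat.log 2 (n + 1) + (2 * (C * C) + C) := by
        rcases min_choice (s n) n with h9 | h9
        · rw [h9] at h6; exact h6
        · rw [h9] at h6; omega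
      have h10 : C * C * Nat.log 2 (n + 1) ≤
          (C * C + (2 * (C * C) + C) + s N) * Nat.log 2 (n + 1) :=
        Nat.mul_le_mul_right _ (by omega)
      omega
  tfae_finish

end Pool.Agent.LibTA92
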